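import Pool.Agent.Run7.h645.KH.Small

/-!
# `(k - 1, k)`-homogeneous groups are `(k - 2, k - 1)`-homogeneous: the cases `k ≤ 5`

Let `G` be a group of permutations of a set with at least `2 k` points which is `(k - 1, k)`-homogeneous. For
`k ≤ 5` we prove, without the classification of finite simple groups, that `G` is `(k - 2, k - 1)`-homogeneous.
The proof is combinatorial: if `G` is not `(k - 2, k - 1)`-homogeneous, then there is a family `F` of
`(k - 2)`-sets such that every `k`-set contains a member of `F` and a `(k - 1)`-set without members of `F`. There is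
no such family on `2 k` points. For `k = 5` one first shows that on at least eight points two members of `F` have at
most one common point (a search tree, checked by the kernel), and then that every pair of points of a set of ten
points is in exactly one member of `F`, which is impossible by parity.

For all `k` the implication holds if the number of points is at least the Ramsey number for `k - 1` and `k`, and
colourings of `(k - 2)`-sets.
-/

set_option autoImplicit false

namespace Pool.Agent.Results.MP_078193_al.FirstCases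

open Pool.Agent.Run7.h645.KH

universe u

theorem no_mixed {Ω : Type u} {k : ℕ} {F : Finset Ω → Prop} (h3 : 3 ≤ k) (h5 : k ≤ 5)
    (hS : ∃ S : Finset Ω, 2 * k ≤ S.card) : ¬ Mixed F (k - 2) := by
  classical
  intro h
  obtain ⟨S, hS⟩ := hS
  obtain rfl | rfl | rfl : k = 3 ∨ k = 4 ∨ k = 5 := by omega
  · exact no_three h ⟨S, by omega⟩
  · exact no_four h ⟨S, by omega⟩
  · exact five h ⟨S, by omega⟩

theorem pair_blocks {Ω : Type u} {F : Finset Ω → Prop} (h : Mixed F 3)
    (hS : ∃ S : Finset Ω, 8 ≤ S.card) (s t : Finset Ω) (hs : s.card = 3) (ht : t.card = 3)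
    (hFs : F s) (hFt : F t) (hst : s ≠ t) : ∀ a ∈ s, ∀ b ∈ s, a ≠ b → ¬ (a ∈ t ∧ b ∈ t) := by
  classical
  rintro a ha b hb hab ⟨hat, hbt⟩
  have aux : ∀ r : Finset Ω, r.card = 3 → a ∈ r → b ∈ r → ∃ c, c ≠ a ∧ c ≠ b ∧ r = {a, b, c} := by
    intro r hr har hbr
    have h1 : ((r.erase a).erase b).card = 1 := by
      rw [Finset.card_erase_of_mem (Finset.mem_erase.mpr ⟨hab.symm, hbr⟩),
        Finset.card_erase_of_mem har, hr]
    obtain ⟨c, hc⟩ := Finset.card_eq_one.mp h1
    have hcm : c ∈ (r.erase a).erase b := by rw [hc]; exact Finset.mem_singleton_self c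
    obtain ⟨h2, h3⟩ := Finset.mem_erase.mp hcm
    obtain ⟨h4, h5⟩ := Finset.mem_erase.mp h3
    refine ⟨c, h4, h2, ?_⟩
    rw [← Finset.insert_erase har, ← Finset.insert_erase (Finset.mem_erase.mpr ⟨hab.symm, hbr⟩), hc]
  obtain ⟨c, hca, hcb, hsc⟩ := aux s hs ha hb
  obtain ⟨d, hda, hdb, htd⟩ := aux t ht hat hbt
  obtain ⟨S, hS⟩ := hS
  have := unique (five_of_mixed h) (fun a b c h => h.1) S hS (a := a) (b := b) (c := c) (d := d)
    ⟨nodup3 hab hca.symm hcb.symm, hsc ▸ hFs⟩ ⟨nodup3 hab hda.symm hdb.symm, htd ▸ hFt⟩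
  exact hst (by rw [hsc, htd, this])

theorem result :
    (∀ (Ω : Type u) (G : Subgroup (Equiv.Perm Ω)) (k : ℕ), 2 ≤ k → k ≤ 5 →
      (∃ S : Finset Ω, 2 * k ≤ S.card) → Homog G (k - 1) → Homog G (k - 2)) ∧
    (∀ (Ω : Type u) (k : ℕ) (F : Finset Ω → Prop), 3 ≤ k → k ≤ 5 →
      (∃ S : Finset Ω, 2 * k ≤ S.card) → ¬ Mixed F (k - 2)) ∧
    (∀ (Ω : Type u) (F : Finset Ω → Prop), (∃ S : Finset Ω, 8 ≤ S.card) → Mixed F 3 →
      ∀ s t : Finset Ω, s.card = 3 → t.card = 3 → F s → F t → s ≠ t →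
        ∀ a ∈ s, ∀ b ∈ s, a ≠ b → ¬ (a ∈ t ∧ b ∈ t)) ∧
    ∀ (Ω : Type u) (G : Subgroup (Equiv.Perm Ω)) (k N : ℕ), 3 ≤ k → Arrow N k →
      (∃ S : Finset Ω, N ≤ S.card) → Homog G (k - 1) → Homog G (k - 2) := by
  refine ⟨?_, fun Ω k F h3 h5 hS => no_mixed h3 h5 hS,
    fun Ω F hS h s t hs ht hFs hFt hst => pair_blocks h hS s t hs ht hFs hFt hst, ?_⟩
  · intro Ω G k h2 h5 hS h
    by_contra hn
    rcases Nat.lt_or_ge k 3 with h3 | h3
    · obtain rfl : k = 2 := by omega
      refine hn fun A B hA _ => ⟨1, G.one_mem, ?_⟩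
      rw [Finset.card_eq_zero.mp hA]
      intro a ha
      exact absurd ha (Finset.notMem_empty a)
    · obtain ⟨m, rfl⟩ := Nat.exists_eq_add_of_le' h3
      obtain ⟨F, hF⟩ := reduce (m := m + 1) h hn
      exact no_mixed h3 h5 hS hF
  · intro Ω G k N h3 hN hS h
    by_contra hn
    obtain ⟨m, rfl⟩ := Nat.exists_eq_add_of_le' h3
    obtain ⟨F, hF⟩ := reduce (m := m + 1) h hn
    exact no_ramsey hF hN hS

end Pool.Agent.Results.MP_078193_al.FirstCases
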